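import Pool.Agent.Helper85_Leo.Main

/-!
# A criterion for Leopoldt's conjecture at a given number field and prime

Let `K = ℚ(θ)` be a number field of degree `n` and let `g i` be monic nonconstant integral
polynomials, at least one more than the unit rank of `K`, with squarefree product `G` of degree `n`
and `G(θ) = ± 1`. If `G(p^m X + a) = p^(m n) H(X)` with `H` integral and `p^(2m) > n + 1`, then
Leopoldt's conjecture holds for `K` and `p`.

`LeopoldtAt K p`, defined in `Pool/Agent/Helper85_Leo/Defs.lean`, is the statement of the frozen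
statement S17123 for the fixed field `K` and prime `p`.
-/

set_option autoImplicit false

open Polynomial NumberField Pool.Agent.Helper85_Leo

namespace Pool.Agent.Results.MP_5f2860_nt.UnitCriterion

theorem result (K : Type) [Field K] [NumberField K] (p : ℕ) [Fact p.Prime]
    (ι : Type) [Fintype ι] (g : ι → ℤ[X]) (θ : K) (a : ℤ) (m : ℕ) (H : ℤ[X])
    (hmonic : ∀ i, (g i).Monic) (hdeg : ∀ i, 0 < (g i).natDegree)
    (hsq : Squarefree ((∏ i, g i).map (Int.castRingHom ℚ)))
    (hgen : IntermediateField.adjoin ℚ {θ} = ⊤)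
    (hfin : Module.finrank ℚ K = (∏ i, g i).natDegree)
    (hroot : (aeval θ (∏ i, g i)) ^ 2 = 1)
    (hrank : Units.rank K + 1 ≤ Fintype.card ι)
    (hH : (∏ i, g i).comp (C ((p : ℤ) ^ m) * X + C a) =
      C ((p : ℤ) ^ (m * Module.finrank ℚ K)) * H)
    (hpm : Module.finrank ℚ K + 1 < p ^ (2 * m)) :
    LeopoldtAt K p :=
  leopoldtAt_of_poly p g hmonic hdeg hsq θ hgen hfin hroot hrank a m H hH hpm

end Pool.Agent.Results.MP_5f2860_nt.UnitCriterion
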